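import Mathlib
import Pool.Agent.Lib.MP_11349d_lc.Main

/-!
# BPFA does not imply Aronszajn tree saturation

If there is a reflecting cardinal, then there is a structure `(M, E)` for the language of set theory which
satisfies all the axioms of ZFC, the bounded proper forcing axiom, and the statement that some Aronszajn
tree has a family of at least `ℵ₂` pairwise almost disjoint subtrees.

Definitions: `Fm`, `sat` (first-order formulas, satisfaction) in `Lib/BVM/FmDef.lean`, `IsZFC` in
`Lib/BVM/ZFCDef.lean`, everything else (`Reflecting`, `BPFA`, `NotSaturated`) in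
`Lib/MP_11349d_lc/Stmt.lean`.
-/

namespace Pool.Agent.Results.MP_11349d_lc.BPFANotSaturated

open Pool.Agent.Lib.BVM Pool.Agent.BPF

theorem result (h : ∃ κ : Cardinal.{0}, Reflecting κ) :
    ∃ (M : Type 1) (E : M → M → Prop), IsZFC E ∧ BPFA E ∧ NotSaturated E :=
  main h

end Pool.Agent.Results.MP_11349d_lc.BPFANotSaturated
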